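import Pool.Agent.KTB.StmtsKB

set_option autoImplicit false

/-! Row FRT of the squad KTB (helper91): where the class of a free point touches the cover. -/

namespace Pool.Agent.KTB.H91

open Pool.Agent.KTB Finset
open scoped Classical

theorem frt : FrtStmt := by
  intro ι T _ D S K μ k t hI hF j hj b hb hx
  rw [mem_sdiff] at hj
  by_cases hbt : b = t
  · refine ⟨?_, hbt⟩
    by_contra hjk
    rw [hbt] at hx
    exact hx (hF.oth j hj.1 hjk)
  · exfalso
    obtain ⟨j', hj', hx'⟩ := hF.cls b hb hbt
    have hb2 := hb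
    unfold Dat.sg at hb2
    rw [mem_filter] at hb2
    obtain ⟨hbS, c, hc, hρ⟩ := hb2
    have ht := hF.tN
    unfold Dat.N at ht
    rw [mem_filter] at ht
    obtain ⟨_, ρ, hρR, hρt⟩ := ht
    have hbN : b ∈ D.N S := by
      unfold Dat.N
      rw [mem_filter]
      refine ⟨hbS, ρ, hρR, ?_⟩
      rw [hρ ρ hρR]
      exact mul_ne_zero hc hρt
    obtain ⟨k1, _, _, hk1⟩ := hI.cov b hbN
    have hj'K : j' ∈ K := by
      unfold Dat.par at hj'
      exact (mem_filter.1 hj').1
    have e1 : j = k1 := by
      by_contra h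
      exact hx (hk1 j hj.1 h)
    have e2 : j' = k1 := by
      by_contra h
      exact hx' (hk1 j' hj'K h)
    rw [e2, ← e1] at hj'
    exact hj.2 hj'

end Pool.Agent.KTB.H91
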