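import Pool.Agent.KTB.StmtsKD

/-!
# KTB row XCS: a valid set through a free point, with its closure property
-/

set_option autoImplicit false

namespace Pool.Agent.KTB.H91

open Pool.Agent.KTB Finset
open scoped Classical

theorem xcs (h1 : IdnStmt) (h2 : CloStmt) : XcsStmt := by
  intro ι T _ D S K μ k t hLL hI hF
  obtain ⟨-, -, hdiff, hadd, hcl⟩ := h1 ι T D S
  obtain ⟨l₁, hl₁⟩ := hLL.1
  have htS : t ∈ S := (mem_filter.1 hF.tN).1
  obtain ⟨ρ₀, hρ₀, hρt⟩ := (mem_filter.1 hF.tN).2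
  -- the set `Q` and the norms
  set P : ι → Prop := fun y => ∃ c : ℚ, 0 < c ∧ ∀ l, D.Sol S l → l y = c * l t with hP
  set Q : Finset ι := S.filter P with hQ
  set p : ι → ℚ := fun y => if h : P y then h.choose else 1 with hp
  set f : (ι → ℚ) → ℚ := fun l => l t with hf
  have hpQ : ∀ r ∈ Q, 0 < p r ∧ ∀ l, D.Sol S l → l r = p r * f l := by
    intro r hr
    have h : P r := (mem_filter.1 hr).2
    have e : p r = h.choose := by rw [hp]; exact dif_pos h
    rw [e]
    exact h.choose_spec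
  have hRay : D.Ray S Q p f := by
    refine ⟨filter_subset _ _, hpQ, l₁, l₁ + ρ₀, hl₁, hadd l₁ hl₁ ρ₀ hρ₀, ?_⟩
    show l₁ t ≠ (l₁ + ρ₀) t
    rw [Pi.add_apply]
    intro h
    apply hρt
    linarith
  -- the partners of the negative elements
  have hex : ∀ W, ∃ j y', W ∈ D.sm S t → j ∈ D.par S K t ∧ D.Clean S j W y' := by
    intro W
    by_cases hW : W ∈ D.sm S t
    · obtain ⟨hWS, c, hc, hWc⟩ := mem_filter.1 hW
      have hne : W ≠ t := by
        rintro rfl
        have h := hWc ρ₀ hρ₀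
        apply hρt
        have : (1 + c) * ρ₀ W = 0 := by linarith
        rcases mul_eq_zero.1 this with h3 | h3
        · linarith
        · exact h3
      have hsg : W ∈ D.sg S t := by
        refine mem_filter.2 ⟨hWS, -c, by linarith, fun ρ hρ => ?_⟩
        rw [hWc ρ hρ]
        ring
      obtain ⟨j, hj, hxj⟩ := hF.cls W hsg hne
      obtain ⟨y', hy'⟩ := hF.pair j hj W hWS hxj
      exact ⟨j, y', fun _ => ⟨hj, hy'⟩⟩
    · exact ⟨k, t, fun h => absurd h hW⟩
  choose kk π hkp using hex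
  have hparK : ∀ j ∈ D.par S K t, j ∈ K := fun j hj => (mem_filter.1 hj).1
  have hinj : Set.InjOn π (D.sm S t : Set ι) := by
    intro W hW W' hW' heq
    obtain ⟨hj, hc⟩ := hkp W hW
    obtain ⟨hj', hc'⟩ := hkp W' hW'
    rw [← heq] at hc'
    obtain ⟨hWS, c, hc0, hWc⟩ := mem_filter.1 (Finset.mem_coe.1 hW)
    have hzN : π W ∈ D.N S := by
      refine mem_filter.2 ⟨hc.2.1, ρ₀, hρ₀, fun h0 => ?_⟩
      have h3 := (hcl (kk W) W (π W) hc).2 ρ₀ hρ₀
      have h4 := hWc ρ₀ hρ₀
      rw [h0, add_zero] at h3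
      rw [h3] at h4
      have h5 : c * ρ₀ t = 0 := by linarith
      rcases mul_eq_zero.1 h5 with h6 | h6
      · linarith
      · exact hρt h6
    obtain ⟨j0, -, -, hj0⟩ := hI.cov (π W) hzN
    have e1 : kk W = j0 := by
      by_contra hne
      have h3 := hj0 _ (hparK _ hj) hne
      have h4 := hc.2.2.2.2.1
      omega
    have e2 : kk W' = j0 := by
      by_contra hne
      have h3 := hj0 _ (hparK _ hj') hne
      have h4 := hc'.2.2.2.2.1
      omega
    rw [e1] at hc
    rw [e2] at hc'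
    by_contra hne
    have h3 := hc.2.2.2.2.2 W' hc'.1 (fun h => hne h.symm) hc'.2.2.1
    have h4 := hc'.2.2.2.1
    omega
  set Wc : Finset ι := (D.sm S t).filter fun W => π W ∈ Q with hWc
  have hWcsm : ∀ W ∈ Wc, W ∈ D.sm S t := fun W hW => (mem_filter.1 hW).1
  have key := h2 ι T D S Q Wc {t} p f π kk hLL hRay
    (fun W hW => (mem_filter.1 (hWcsm W hW)).1)
    (by
      intro W hW
      refine ⟨fun hWQ => ?_, (mem_filter.1 hW).2, (hkp W (hWcsm W hW)).2⟩
      obtain ⟨c', hc', hW'⟩ := (mem_filter.1 hWQ).2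
      obtain ⟨-, c, hc, hWc⟩ := mem_filter.1 (hWcsm W hW)
      have h3 := hW' l₁ hl₁
      have h4 := hW' _ (hadd l₁ hl₁ ρ₀ hρ₀)
      have h5 := hWc ρ₀ hρ₀
      rw [Pi.add_apply, Pi.add_apply, h3, h5] at h4
      have h6 : (c + c') * ρ₀ t = 0 := by linarith
      rcases mul_eq_zero.1 h6 with h7 | h7
      · linarith
      · exact hρt h7)
    (by
      intro W hW W' hW' h
      exact hinj (Finset.mem_coe.2 (hWcsm W (Finset.mem_coe.1 hW)))
        (Finset.mem_coe.2 (hWcsm W' (Finset.mem_coe.1 hW'))) h)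
    (by
      intro Y hY c hc hl
      have hsm : Y ∈ D.sm S t := by
        refine mem_filter.2 ⟨hY, c, hc, fun ρ hρ => ?_⟩
        have h3 := hl l₁ hl₁
        have h4 := hl _ (hadd l₁ hl₁ ρ hρ)
        rw [Pi.add_apply, h3] at h4
        have h5 : f (l₁ + ρ) = f l₁ + ρ t := rfl
        rw [h5] at h4
        linarith
      refine mem_filter.2 ⟨hsm, ?_⟩
      obtain ⟨-, hcln⟩ := hkp Y hsm
      refine mem_filter.2 ⟨hcln.2.1, c, hc, fun l hll => ?_⟩
      have h3 := (hcl _ _ _ hcln).1 l hll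
      have h4 := hl l hll
      have h5 : f l = l t := rfl
      rw [h5] at h4
      linarith)
    (by
      intro y hy
      rw [mem_singleton] at hy
      rw [hy]
      exact mem_filter.2 ⟨htS, 1, one_pos, fun l _ => (one_mul _).symm⟩)
    (by
      intro W hW hπ
      exfalso
      rw [mem_singleton] at hπ
      obtain ⟨hj, hcln⟩ := hkp W (hWcsm W hW)
      rw [hπ] at hcln
      have h3 := hcln.2.2.2.2.1
      by_cases hk : kk W = k
      · rw [hk] at hj
        exact hF.kpar hj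
      · have h4 := hF.oth _ (hparK _ hj) hk
        omega)
  obtain ⟨X, hX0, hXQ, hXc, -, -, hV, -⟩ := key
  have htX : t ∈ X := hX0 (mem_singleton_self t)
  refine ⟨X, π, kk, ⟨p, f, hV ⟨t, htX⟩⟩, htX, ?_, hkp, ?_⟩
  · intro x hx
    exact (mem_filter.1 (hXQ hx)).2
  · intro W hW c hc hl j hj hpr
    refine hXc W (mem_filter.2 ⟨hW, ?_⟩) j hj hpr
    obtain ⟨-, hcln⟩ := hkp W hW
    refine mem_filter.2 ⟨hcln.2.1, c, hc, fun l hll => ?_⟩
    have h3 := (hcl _ _ _ hcln).1 l hll
    have h4 := hl l hll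
    linarith

end Pool.Agent.KTB.H91
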